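import Mathlib

open Finset

namespace H443APN

abbrev V (n : ℕ) := Fin n → ZMod 2

/-- `F` is almost perfect nonlinear. -/
def APN {n : ℕ} (F : V n → V n) : Prop :=
  ∀ a, a ≠ 0 → ∀ b, (univ.filter fun x => F x + F (x + a) = b).card ≤ 2

/-- The graph of `F`. -/
def graph {n : ℕ} (F : V n → V n) : Finset (V n × V n) := univ.image fun x => (x, F x)

/-- The number of 3-element subsets of `S` with sum `p`. -/
def mult {n : ℕ} (S : Finset (V n × V n)) (p : V n × V n) : ℕ :=
  ((S.powersetCard 3).filter fun T => ∑ x ∈ T, x = p).card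

/-- The sign `(-1)^t`. -/
def chi (t : ZMod 2) : ℤ := if t = 0 then 1 else -1

/-- The Walsh transform of `F`. -/
def walsh {n : ℕ} (F : V n → V n) (u v : V n) : ℤ := ∑ x, chi (u ⬝ᵥ x + v ⬝ᵥ F x)

/-- All components of `F` are plateaued. -/
def Plateaued {n : ℕ} (F : V n → V n) : Prop :=
  ∀ v, ∃ l : ℤ, ∀ u, walsh F u v = 0 ∨ walsh F u v = l ∨ walsh F u v = -l

lemma chi_add (s t : ZMod 2) : chi (s + t) = chi s * chi t := by
  revert s t; decide

lemma chi_zero : chi 0 = 1 := rfl

lemma chi_sq (s : ZMod 2) : chi s * chi s = 1 := by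
  revert s; decide

lemma add_self {n : ℕ} (x : V n) : x + x = 0 := by
  funext i
  simp only [Pi.add_apply, Pi.zero_apply]
  generalize x i = t
  revert t; decide

lemma sum_chi {n : ℕ} (x : V n) : ∑ u : V n, chi (u ⬝ᵥ x) = if x = 0 then (2 : ℤ) ^ n else 0 := by
  split_ifs with h
  · subst h
    simp [chi_zero]
  · obtain ⟨i, hi⟩ : ∃ i, x i ≠ 0 := by
      by_contra hc
      push Not at hc
      exact h (funext hc)
    have hi1 : x i = 1 := by
      have : ∀ t : ZMod 2, t ≠ 0 → t = 1 := by decide
      exact this _ hi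
    have h1 : ∑ u : V n, chi ((u + Pi.single i 1) ⬝ᵥ x) = ∑ u : V n, chi (u ⬝ᵥ x) :=
      Equiv.sum_comp (Equiv.addRight (Pi.single i (1 : ZMod 2) : V n))
        (fun u : V n => chi (u ⬝ᵥ x))
    have h2 : ∀ u : V n, chi ((u + Pi.single i 1) ⬝ᵥ x) = - chi (u ⬝ᵥ x) := by
      intro u
      rw [add_dotProduct, chi_add]
      have : (Pi.single i (1 : ZMod 2) : V n) ⬝ᵥ x = 1 := by
        simp [hi1]
      rw [this]
      have : chi 1 = -1 := by decide
      rw [this]; ring
    rw [Finset.sum_congr rfl (fun u _ => h2 u), Finset.sum_neg_distrib] at h1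
    linarith

lemma sum_chi' {n : ℕ} (x : V n) : ∑ u : V n, chi (x ⬝ᵥ u) = if x = 0 then (2 : ℤ) ^ n else 0 := by
  calc ∑ u : V n, chi (x ⬝ᵥ u) = ∑ u : V n, chi (u ⬝ᵥ x) :=
        Finset.sum_congr rfl (fun u _ => by rw [dotProduct_comm])
    _ = _ := sum_chi x

lemma add_eq_zero_iff' {n : ℕ} (x y : V n) : x + y = 0 ↔ x = y := by
  constructor
  · intro h
    have := add_self y
    have h2 : x + y = y + y := by rw [h, this]
    exact add_right_cancel h2
  · rintro rfl; exact add_self x

/-- Parseval. -/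
lemma parseval {n : ℕ} (F : V n → V n) (v : V n) :
    ∑ u, walsh F u v ^ 2 = ((2 : ℤ) ^ n) ^ 2 := by
  have h1 : ∀ u, walsh F u v ^ 2 =
      ∑ x, ∑ y, chi (v ⬝ᵥ F x + v ⬝ᵥ F y) * chi (u ⬝ᵥ (x + y)) := by
    intro u
    rw [pow_two, walsh, Finset.sum_mul_sum]
    refine Finset.sum_congr rfl fun x _ => Finset.sum_congr rfl fun y _ => ?_
    rw [dotProduct_add, chi_add, chi_add, chi_add, chi_add]; ring
  rw [Finset.sum_congr rfl (fun u _ => h1 u), Finset.sum_comm]
  have h2 : ∀ x : V n, ∑ u : V n, ∑ y, chi (v ⬝ᵥ F x + v ⬝ᵥ F y) * chi (u ⬝ᵥ (x + y))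
      = (2 : ℤ) ^ n := by
    intro x
    rw [Finset.sum_comm]
    have : ∀ y : V n, ∑ u : V n, chi (v ⬝ᵥ F x + v ⬝ᵥ F y) * chi (u ⬝ᵥ (x + y))
        = if y = x then (2 : ℤ) ^ n else 0 := by
      intro y
      rw [← Finset.mul_sum, sum_chi]
      by_cases hy : y = x
      · subst hy
        rw [if_pos (add_self y), if_pos rfl, chi_add, chi_sq, one_mul]
      · rw [if_neg hy, if_neg, mul_zero]
        rw [add_eq_zero_iff']
        exact fun h => hy h.symm
    rw [Finset.sum_congr rfl (fun y _ => this y)]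
    simp
  rw [Finset.sum_congr rfl (fun x _ => h2 x)]
  simp [pow_two]

/-- The inverse transform in the first variable. -/
lemma inv_u {n : ℕ} (F : V n → V n) (a v : V n) :
    ∑ u, chi (u ⬝ᵥ a) * walsh F u v = (2 : ℤ) ^ n * chi (v ⬝ᵥ F a) := by
  have h1 : ∀ u, chi (u ⬝ᵥ a) * walsh F u v =
      ∑ x, chi (v ⬝ᵥ F x) * chi (u ⬝ᵥ (a + x)) := by
    intro u
    rw [walsh, Finset.mul_sum]
    refine Finset.sum_congr rfl fun x _ => ?_
    rw [dotProduct_add, chi_add, chi_add]; ring
  rw [Finset.sum_congr rfl (fun u _ => h1 u), Finset.sum_comm]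
  have h2 : ∀ x : V n, ∑ u : V n, chi (v ⬝ᵥ F x) * chi (u ⬝ᵥ (a + x))
      = if x = a then (2 : ℤ) ^ n * chi (v ⬝ᵥ F a) else 0 := by
    intro x
    rw [← Finset.mul_sum, sum_chi]
    by_cases hx : x = a
    · subst hx
      rw [if_pos (add_self x), if_pos rfl]; ring
    · rw [if_neg hx, if_neg, mul_zero]
      rw [add_eq_zero_iff']
      exact fun h => hx h.symm
  rw [Finset.sum_congr rfl (fun x _ => h2 x)]
  simp

/-- The inverse transform in the second variable, up to a multiple of `2 ^ n`. -/
lemma inv_v {n : ℕ} (F : V n → V n) (u c : V n) :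
    (2 : ℤ) ^ n ∣ ∑ v, chi (v ⬝ᵥ c) * walsh F u v := by
  have h1 : ∀ v, chi (v ⬝ᵥ c) * walsh F u v =
      ∑ x, chi (u ⬝ᵥ x) * chi (v ⬝ᵥ (c + F x)) := by
    intro v
    rw [walsh, Finset.mul_sum]
    refine Finset.sum_congr rfl fun x _ => ?_
    rw [dotProduct_add, chi_add, chi_add]; ring
  rw [Finset.sum_congr rfl (fun u _ => h1 u), Finset.sum_comm]
  refine Finset.dvd_sum fun x _ => ?_
  rw [← Finset.mul_sum, sum_chi]
  refine Dvd.dvd.mul_left ?_ _
  split_ifs
  · exact dvd_rfl
  · exact dvd_zero _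

/-- The cube. -/
lemma cube {n : ℕ} (F : V n → V n) (a v : V n) :
    ∑ u, chi (u ⬝ᵥ a) * walsh F u v ^ 3 =
      (2 : ℤ) ^ n * ∑ x, ∑ y, chi (v ⬝ᵥ (F x + F y + F (x + y + a))) := by
  have h1 : ∀ u, chi (u ⬝ᵥ a) * walsh F u v ^ 3 =
      ∑ x, ∑ y, chi (v ⬝ᵥ F x) * chi (v ⬝ᵥ F y) * (chi (u ⬝ᵥ (x + y + a)) * walsh F u v) := by
    intro u
    have : walsh F u v ^ 3 = walsh F u v ^ 2 * walsh F u v := by ring
    rw [this, pow_two]
    nth_rewrite 1 [walsh]
    nth_rewrite 1 [walsh]
    rw [Finset.sum_mul_sum, ← mul_assoc, Finset.mul_sum, Finset.sum_mul]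
    refine Finset.sum_congr rfl fun x _ => ?_
    rw [Finset.mul_sum, Finset.sum_mul]
    refine Finset.sum_congr rfl fun y _ => ?_
    rw [dotProduct_add, dotProduct_add, chi_add, chi_add, chi_add, chi_add]; ring
  rw [Finset.sum_congr rfl (fun u _ => h1 u), Finset.sum_comm, Finset.mul_sum]
  refine Finset.sum_congr rfl fun x _ => ?_
  rw [Finset.sum_comm, Finset.mul_sum]
  refine Finset.sum_congr rfl fun y _ => ?_
  rw [← Finset.mul_sum, inv_u, dotProduct_add, dotProduct_add, chi_add, chi_add]; ring

/-- The number of solutions, as a double sum. -/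
def N {n : ℕ} (F : V n → V n) (a b : V n) : ℤ :=
  ∑ x, ∑ y, if F x + F y + F (x + y + a) = b then 1 else 0

lemma N_eq {n : ℕ} (F : V n → V n) (a b : V n) :
    (2 : ℤ) ^ n * N F a b =
      ∑ v, chi (v ⬝ᵥ b) * ∑ x, ∑ y, chi (v ⬝ᵥ (F x + F y + F (x + y + a))) := by
  have h1 : ∀ v : V n, chi (v ⬝ᵥ b) * ∑ x, ∑ y, chi (v ⬝ᵥ (F x + F y + F (x + y + a)))
      = ∑ x, ∑ y, chi (v ⬝ᵥ (F x + F y + F (x + y + a) + b)) := by
    intro v
    rw [Finset.mul_sum]
    refine Finset.sum_congr rfl fun x _ => ?_
    rw [Finset.mul_sum]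
    refine Finset.sum_congr rfl fun y _ => ?_
    rw [dotProduct_add v _ b, chi_add]; ring
  rw [Finset.sum_congr rfl (fun u _ => h1 u), Finset.sum_comm, N, Finset.mul_sum]
  refine Finset.sum_congr rfl fun x _ => ?_
  rw [Finset.sum_comm, Finset.mul_sum]
  refine Finset.sum_congr rfl fun y _ => ?_
  rw [sum_chi]
  by_cases h : F x + F y + F (x + y + a) = b
  · rw [if_pos h, if_pos ((add_eq_zero_iff' _ _).2 h)]; ring
  · rw [if_neg h, if_neg (fun h' => h ((add_eq_zero_iff' _ _).1 h'))]; ring

lemma walsh_zero {n : ℕ} (F : V n → V n) (u : V n) :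
    walsh F u 0 = if u = 0 then (2 : ℤ) ^ n else 0 := by
  simp only [walsh, zero_dotProduct, add_zero]
  exact sum_chi' u

/-- Plateaued functions: the number of solutions. -/
lemma N_plateaued {n : ℕ} (F : V n → V n) (l : V n → ℤ)
    (hl : ∀ v u, walsh F u v = 0 ∨ walsh F u v = l v ∨ walsh F u v = - l v) (a c : V n) :
    (2 : ℤ) ^ n * N F a (F a + c) = ∑ v, l v ^ 2 * chi (v ⬝ᵥ c) := by
  rw [N_eq]
  refine Finset.sum_congr rfl fun v _ => ?_
  have h1 := cube F a v
  have h2 : ∀ u, chi (u ⬝ᵥ a) * walsh F u v ^ 3 = l v ^ 2 * (chi (u ⬝ᵥ a) * walsh F u v) := by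
    intro u
    rcases hl v u with h | h | h <;> rw [h] <;> ring
  rw [Finset.sum_congr rfl (fun u _ => h2 u), ← Finset.mul_sum, inv_u] at h1
  have h3 : l v ^ 2 * chi (v ⬝ᵥ F a) =
      ∑ x, ∑ y, chi (v ⬝ᵥ (F x + F y + F (x + y + a))) := by
    have hq : (2 : ℤ) ^ n ≠ 0 := by positivity
    apply mul_left_cancel₀ hq
    rw [← h1]; ring
  rw [← h3, dotProduct_add, chi_add]
  have := chi_sq (v ⬝ᵥ F a)
  linear_combination l v ^ 2 * chi (v ⬝ᵥ c) * this

/-- The value at a point of the graph, for APN functions. -/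
lemma N_graph {n : ℕ} (F : V n → V n) (hF : APN F) (a : V n) :
    N F a (F a) = 3 * 2 ^ n - 2 := by
  have key : ∀ x y : V n, F x + F y + F (x + y + a) = F a ↔ (x = a ∨ y = a ∨ x = y) := by
    intro x y
    constructor
    · intro h
      by_contra hc
      push Not at hc
      obtain ⟨hxa, hya, hxy⟩ := hc
      have hd : x + y ≠ 0 := fun h0 => hxy ((add_eq_zero_iff' _ _).1 h0)
      have h1 := hF (x + y) hd (F x + F y)
      have e1 : x + (x + y) = y := by rw [← add_assoc, add_self, zero_add]
      have e2 : y + (x + y) = x := by rw [add_comm x y, ← add_assoc, add_self, zero_add]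
      have e3 : a + (x + y) = x + y + a := by abel
      have h2 : ({x, y, a} : Finset (V n)) ⊆
          univ.filter fun z => F z + F (z + (x + y)) = F x + F y := by
        intro z hz
        simp only [Finset.mem_insert, Finset.mem_singleton] at hz
        simp only [Finset.mem_filter, Finset.mem_univ, true_and]
        rcases hz with rfl | rfl | rfl
        · rw [e1]
        · rw [e2, add_comm]
        · rw [e3]
          rw [← h]
          have : F x + F y + F (x + y + z) + F (x + y + z)
              = F x + F y + (F (x + y + z) + F (x + y + z)) := by abel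
          rw [this, add_self, add_zero]
      have h3 := Finset.card_le_card h2
      have h4 : ({x, y, a} : Finset (V n)).card = 3 := by
        rw [Finset.card_eq_three]
        exact ⟨x, y, a, hxy, hxa, hya, rfl⟩
      omega
    · rintro (h | h | h)
      · subst h
        have : x + y + x = y := by
          rw [add_comm x y, add_assoc, add_self, add_zero]
        rw [this, add_assoc, add_self, add_zero]
      · subst h
        have : x + y + y = x := by
          rw [add_assoc, add_self, add_zero]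
        rw [this, add_comm (F x), add_assoc, add_self, add_zero]
      · subst h
        rw [add_self, add_self, zero_add, zero_add]
  unfold N
  have h1 : ∀ x : V n, (∑ y, if F x + F y + F (x + y + a) = F a then (1 : ℤ) else 0)
      = if x = a then (2 : ℤ) ^ n else 2 := by
    intro x
    by_cases hx : x = a
    · rw [if_pos hx]
      have : ∀ y : V n, (if F x + F y + F (x + y + a) = F a then (1 : ℤ) else 0) = 1 := by
        intro y
        rw [if_pos ((key x y).2 (Or.inl hx))]
      rw [Finset.sum_congr rfl (fun y _ => this y)]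
      simp
    · rw [if_neg hx, Finset.sum_boole]
      have : (univ.filter fun y : V n => F x + F y + F (x + y + a) = F a) = {a, x} := by
        ext y
        simp only [Finset.mem_filter, Finset.mem_univ, true_and, Finset.mem_insert,
          Finset.mem_singleton, key]
        constructor
        · rintro (h | h | h)
          · exact absurd h hx
          · exact Or.inl h
          · exact Or.inr h.symm
        · rintro (h | h)
          · exact Or.inr (Or.inl h)
          · exact Or.inr (Or.inr h.symm)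
      rw [this, Finset.card_pair (fun h => hx h.symm)]
      norm_num
  rw [Finset.sum_congr rfl (fun x _ => h1 x)]
  have h2 : ∀ x : V n, (if x = a then (2 : ℤ) ^ n else 2) = 2 + if x = a then (2 : ℤ) ^ n - 2 else 0 := by
    intro x; split_ifs <;> ring
  rw [Finset.sum_congr rfl (fun x _ => h2 x), Finset.sum_add_distrib]
  simp
  ring

/-- The main congruence: for plateaued APN functions the number of solutions is `2` mod `4`. -/
lemma N_mod_four {n : ℕ} (hn : Even n) (h4 : 4 ≤ n) (F : V n → V n) (hF : APN F)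
    (hP : Plateaued F) (a c : V n) : (4 : ℤ) ∣ N F a (F a + c) - 2 := by
  obtain ⟨r, hr⟩ := hn
  have hr2 : 2 ≤ r := by omega
  choose l hl using hP
  set h : ℤ := 2 ^ r with hh
  have hpos : 0 < h := by positivity
  have hq : (2 : ℤ) ^ n = h * h := by rw [hh, ← pow_add, hr]
  have h4h : (4 : ℤ) ∣ h := by
    rw [hh]
    obtain ⟨s, rfl⟩ : ∃ s, r = 2 + s := ⟨r - 2, by omega⟩
    rw [pow_add]; exact ⟨2 ^ s, by norm_num⟩
  -- the amplitudes
  have hamp : ∀ v, (l v ^ 2 = h * h ∧ ∀ u, walsh F u v = h ∨ walsh F u v = -h) ∨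
      (4 * (h * h) ∣ l v ^ 2 ∧ ∀ u, 2 * h ∣ walsh F u v) := by
    intro v
    have hpar := parseval F v
    set k := (univ.filter fun u => walsh F u v ≠ 0).card with hk
    have h1 : ∀ u, walsh F u v ^ 2 = if walsh F u v ≠ 0 then l v ^ 2 else 0 := by
      intro u
      by_cases hz : walsh F u v = 0
      · rw [if_neg (by simpa using hz), hz]; norm_num
      · rw [if_pos hz]
        rcases hl v u with h' | h' | h'
        · exact absurd h' hz
        · rw [h']
        · rw [h']; ring
    rw [Finset.sum_congr rfl (fun u _ => h1 u), ← Finset.sum_filter, Finset.sum_const, ← hk,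
      nsmul_eq_mul] at hpar
    have hdvd : l v ^ 2 ∣ ((2 : ℤ) ^ n) ^ 2 := ⟨k, by rw [← hpar]; ring⟩
    have hdvd2 : l v ∣ (2 : ℤ) ^ n := (Int.pow_dvd_pow_iff (by norm_num)).1 hdvd
    have hdvd3 : (l v).natAbs ∣ 2 ^ n := by
      have := Int.natAbs_dvd_natAbs.2 hdvd2
      simpa [Int.natAbs_pow] using this
    obtain ⟨j, hj, hj2⟩ := (Nat.dvd_prime_pow Nat.prime_two).1 hdvd3
    have hlsq : l v ^ 2 = 4 ^ j := by
      rw [← Int.natAbs_sq, hj2]
      push_cast
      rw [← pow_mul, mul_comm, pow_mul]; norm_num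
    have hkle : k ≤ 2 ^ n := by
      have : (univ : Finset (V n)).card = 2 ^ n := by simp
      rw [← this]; exact Finset.card_le_univ _ |>.trans (by simp)
    have hk2 : (k : ℤ) * 4 ^ j = 4 ^ n := by
      rw [← hlsq, hpar, ← pow_mul, mul_comm, pow_mul]; norm_num
    have hk3 : k * 4 ^ j = 4 ^ n := by exact_mod_cast hk2
    have hjr : r ≤ j := by
      by_contra hc
      push Not at hc
      have : 4 ^ n < 4 ^ n := by
        calc 4 ^ n = k * 4 ^ j := hk3.symm
          _ ≤ 2 ^ n * 4 ^ j := Nat.mul_le_mul_right _ hkle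
          _ < 2 ^ n * 4 ^ r := Nat.mul_lt_mul_of_pos_left (Nat.pow_lt_pow_right (by norm_num) hc) (by positivity)
          _ = 4 ^ n := by
            rw [hr, show (4 : ℕ) = 2 ^ 2 by norm_num, ← pow_mul, ← pow_mul, ← pow_add]
            congr 1; omega
      exact lt_irrefl _ this
    rcases Nat.eq_or_lt_of_le hjr with hjr | hjr
    · left
      have hl2 : l v ^ 2 = h * h := by
        rw [hlsq, ← hjr, hh, ← pow_add, ← two_mul, pow_mul]; norm_num
      refine ⟨hl2, ?_⟩
      have hkq : k = 2 ^ n := by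
        have : 0 < 4 ^ j := by positivity
        apply Nat.eq_of_mul_eq_mul_right this
        rw [hk3, ← hjr, hr, show (4 : ℕ) = 2 ^ 2 by norm_num, ← pow_mul, ← pow_mul, ← pow_add]
        congr 1; omega
      have hall : (univ.filter fun u => walsh F u v ≠ 0) = univ := by
        apply Finset.eq_univ_of_card
        rw [← hk, hkq]; simp
      intro u
      have hu : walsh F u v ≠ 0 := by
        have : u ∈ univ.filter fun u => walsh F u v ≠ 0 := by rw [hall]; exact mem_univ _
        simpa using this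
      have h5 : walsh F u v ^ 2 = h ^ 2 := by
        rw [h1 u, if_pos hu, hl2]; ring
      exact sq_eq_sq_iff_eq_or_eq_neg.1 h5
    · right
      obtain ⟨s, hs⟩ : ∃ s, j = r + 1 + s := ⟨j - (r + 1), by omega⟩
      constructor
      · rw [hlsq, hs, hh]
        refine ⟨4 ^ s, ?_⟩
        rw [pow_add, pow_add, ← pow_add 2 r r, ← two_mul, pow_mul]; norm_num; ring
      · have h6 : 2 * h ∣ l v := by
          rw [← Int.dvd_natAbs, hj2, hs, hh]
          push_cast
          refine ⟨2 ^ s, ?_⟩
          rw [pow_add, pow_add]; ring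
        intro u
        rcases hl v u with h' | h' | h'
        · rw [h']; exact dvd_zero _
        · rw [h']; exact h6
        · rw [h']; exact (dvd_neg).2 h6
  set B := univ.filter (fun v : V n => l v ^ 2 = h * h) with hB
  have hhne : h * h ≠ 0 := by positivity
  have hE : ∀ c, (4 : ℤ) ∣ N F a (F a + c) - ∑ v ∈ B, chi (v ⬝ᵥ c) := by
    intro c
    have h1 := N_plateaued F l hl a c
    rw [hq] at h1
    rw [← Finset.sum_filter_add_sum_filter_not univ (fun v : V n => l v ^ 2 = h * h)] at h1
    have h2 : ∑ v ∈ univ.filter (fun v : V n => l v ^ 2 = h * h), l v ^ 2 * chi (v ⬝ᵥ c)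
        = h * h * ∑ v ∈ B, chi (v ⬝ᵥ c) := by
      rw [Finset.mul_sum]
      refine Finset.sum_congr rfl fun v hv => ?_
      rw [(Finset.mem_filter.1 hv).2]
    have h3 : 4 * (h * h) ∣
        ∑ v ∈ univ.filter (fun v : V n => ¬ l v ^ 2 = h * h), l v ^ 2 * chi (v ⬝ᵥ c) := by
      refine Finset.dvd_sum fun v hv => ?_
      rcases hamp v with h' | h'
      · exact absurd h'.1 (Finset.mem_filter.1 hv).2
      · exact Dvd.dvd.mul_right h'.1 _
    obtain ⟨w, hw⟩ := h3
    rw [h2, hw] at h1
    refine ⟨w, ?_⟩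
    apply mul_left_cancel₀ hhne
    linear_combination h1
  have hE0 : (4 : ℤ) ∣ (B.card : ℤ) - 2 := by
    have h1 := hE 0
    rw [add_zero, N_graph F hF a, hq] at h1
    simp only [dotProduct_zero, chi_zero, Finset.sum_const, nsmul_eq_mul, mul_one] at h1
    obtain ⟨w, hw⟩ := h1
    obtain ⟨w', hw'⟩ := h4h
    refine ⟨3 * w' * h - 1 - w, ?_⟩
    linear_combination -hw + 3 * h * hw'
  have hK : (4 : ℤ) ∣ ∑ v ∈ B, (1 - chi (v ⬝ᵥ c)) := by
    have h1 : (2 : ℤ) ^ n ∣ ∑ v, (1 - chi (v ⬝ᵥ c)) * walsh F 0 v := by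
      have h2 := dvd_sub (inv_v F 0 0) (inv_v F 0 c)
      rw [← Finset.sum_sub_distrib] at h2
      refine h2.trans (dvd_of_eq (Finset.sum_congr rfl fun v _ => ?_))
      rw [dotProduct_zero, chi_zero]; ring
    have h2 : 4 * h ∣ ∑ v, (1 - chi (v ⬝ᵥ c)) * walsh F 0 v := by
      refine Dvd.dvd.trans ?_ h1
      rw [hq]
      exact mul_dvd_mul_right h4h h
    have h12 : ∀ t : ZMod 2, (2 : ℤ) ∣ 1 - chi t := by decide
    rw [← Finset.sum_filter_add_sum_filter_not univ (fun v : V n => l v ^ 2 = h * h)] at h2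
    have h3 : 4 * h ∣ ∑ v ∈ univ.filter (fun v : V n => ¬ l v ^ 2 = h * h),
        (1 - chi (v ⬝ᵥ c)) * walsh F 0 v := by
      refine Finset.dvd_sum fun v hv => ?_
      rcases hamp v with h' | h'
      · exact absurd h'.1 (Finset.mem_filter.1 hv).2
      · have := mul_dvd_mul (h12 (v ⬝ᵥ c)) (h'.2 0)
        refine Dvd.dvd.trans (dvd_of_eq ?_) this
        ring
    have h5 : 4 * h ∣ ∑ v ∈ univ.filter (fun v : V n => l v ^ 2 = h * h),
        ((1 - chi (v ⬝ᵥ c)) * walsh F 0 v - (1 - chi (v ⬝ᵥ c)) * h) := by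
      refine Finset.dvd_sum fun v hv => ?_
      rcases hamp v with h' | h'
      · rcases h'.2 0 with h'' | h''
        · rw [h'']; simp
        · rw [h'']
          obtain ⟨w, hw⟩ := h12 (v ⬝ᵥ c)
          rw [hw]
          exact ⟨-w, by ring⟩
      · exfalso
        have h6 := h'.1
        rw [(Finset.mem_filter.1 hv).2] at h6
        have h7 := Int.le_of_dvd (by positivity) h6
        nlinarith [mul_pos hpos hpos]
    rw [Finset.sum_sub_distrib] at h5
    have h8 := (dvd_add_left h3).1 h2
    have h9 := dvd_sub h8 h5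
    rw [sub_sub_cancel, ← Finset.sum_mul] at h9
    rw [mul_comm] at h9
    have h10 : h * 4 ∣ h * ∑ v ∈ B, (1 - chi (v ⬝ᵥ c)) := by
      rw [mul_comm h (∑ v ∈ B, (1 - chi (v ⬝ᵥ c)))]
      exact h9
    exact (mul_dvd_mul_iff_left hpos.ne').1 h10
  have h1 := hE c
  rw [Finset.sum_sub_distrib] at hK
  simp only [Finset.sum_const, nsmul_eq_mul, mul_one] at hK
  obtain ⟨w1, hw1⟩ := h1
  obtain ⟨w2, hw2⟩ := hK
  obtain ⟨w3, hw3⟩ := hE0
  exact ⟨w1 - w2 + w3, by linear_combination hw1 - hw2 + hw3⟩

lemma graph_inj {n : ℕ} (F : V n → V n) {P : V n × V n} (h : P ∈ graph F) : P = (P.1, F P.1) := by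
  obtain ⟨x, _, hx⟩ := Finset.mem_image.1 h
  rw [← hx]

/-- Outside the graph the number of solutions is six times the multiplicity. -/
lemma N_mult {n : ℕ} (F : V n → V n) (a b : V n) (hab : F a ≠ b) :
    N F a b = 6 * mult (graph F) (a, b) := by
  have e0 : N F a b = ((univ.filter fun t : V n × V n =>
      F t.1 + F t.2 + F (t.1 + t.2 + a) = b).card : ℤ) := by
    rw [← Finset.sum_boole, Fintype.sum_prod_type]
    rfl
  set g : V n × V n → Finset (V n × V n) := fun t =>
    {(t.1, F t.1), (t.2, F t.2), (t.1 + t.2 + a, F (t.1 + t.2 + a))} with hg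
  set X := univ.filter fun t : V n × V n => F t.1 + F t.2 + F (t.1 + t.2 + a) = b with hX
  set Y := ((graph F).powersetCard 3).filter fun T => ∑ x ∈ T, x = (a, b) with hY
  have hdist : ∀ t ∈ X, t.1 ≠ t.2 ∧ t.1 + t.2 + a ≠ t.1 ∧ t.1 + t.2 + a ≠ t.2 := by
    intro t ht
    have ht' : F t.1 + F t.2 + F (t.1 + t.2 + a) = b := (Finset.mem_filter.1 ht).2
    refine ⟨?_, ?_, ?_⟩
    · intro h
      apply hab
      rw [← ht', h, add_self, add_self, zero_add, zero_add]
    · intro h
      apply hab
      have h2 : t.2 = a := by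
        have : t.1 + (t.2 + a) = t.1 + 0 := by rw [← add_assoc, h, add_zero]
        exact (add_eq_zero_iff' _ _).1 (add_left_cancel this)
      rw [← ht', h, h2, add_comm (F t.1), add_assoc, add_self, add_zero]
    · intro h
      apply hab
      have h2 : t.1 = a := by
        have : t.1 + a + t.2 = 0 + t.2 := by
          rw [zero_add]
          nth_rewrite 2 [← h]
          abel
        exact (add_eq_zero_iff' _ _).1 (add_right_cancel this)
      rw [← ht', h, h2, add_assoc, add_self, add_zero]
  have hmap : ∀ t ∈ X, g t ∈ Y := by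
    intro t ht
    obtain ⟨h1, h2, h3⟩ := hdist t ht
    have ht' : F t.1 + F t.2 + F (t.1 + t.2 + a) = b := (Finset.mem_filter.1 ht).2
    have n1 : (t.1, F t.1) ∉
        ({(t.2, F t.2), (t.1 + t.2 + a, F (t.1 + t.2 + a))} : Finset (V n × V n)) := by
      simp only [Finset.mem_insert, Finset.mem_singleton, Prod.mk.injEq, not_or, not_and]
      exact ⟨fun h => absurd h h1, fun h => absurd h.symm h2⟩
    have n2 : (t.2, F t.2) ∉
        ({(t.1 + t.2 + a, F (t.1 + t.2 + a))} : Finset (V n × V n)) := by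
      simp only [Finset.mem_singleton, Prod.mk.injEq, not_and]
      exact fun h => absurd h.symm h3
    rw [hY, Finset.mem_filter, Finset.mem_powersetCard]
    refine ⟨⟨?_, ?_⟩, ?_⟩
    · intro P hP
      simp only [hg, Finset.mem_insert, Finset.mem_singleton] at hP
      rw [graph, Finset.mem_image]
      rcases hP with rfl | rfl | rfl
      · exact ⟨_, mem_univ _, rfl⟩
      · exact ⟨_, mem_univ _, rfl⟩
      · exact ⟨_, mem_univ _, rfl⟩
    · simp only [hg]
      rw [Finset.card_insert_of_notMem n1, Finset.card_insert_of_notMem n2, Finset.card_singleton]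
    · simp only [hg]
      rw [Finset.sum_insert n1, Finset.sum_insert n2, Finset.sum_singleton]
      refine Prod.ext ?_ ?_
      · show t.1 + (t.2 + (t.1 + t.2 + a)) = a
        have : t.1 + (t.2 + (t.1 + t.2 + a)) = (t.1 + t.1) + (t.2 + t.2) + a := by abel
        rw [this, add_self, add_self, zero_add, zero_add]
      · show F t.1 + (F t.2 + F (t.1 + t.2 + a)) = b
        rw [← add_assoc, ht']
  have hfib : ∀ T ∈ Y, (X.filter fun t => g t = T).card = 6 := by
    intro T hT
    rw [hY, Finset.mem_filter, Finset.mem_powersetCard] at hT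
    obtain ⟨⟨hsub, hcard⟩, hsum⟩ := hT
    obtain ⟨⟨x, x'⟩, ⟨y, y'⟩, ⟨z, z'⟩, hPQ, hPR, hQR, rfl⟩ := Finset.card_eq_three.1 hcard
    have hx : x' = F x := by
      have := graph_inj F (hsub (by simp : (x, x') ∈ _))
      exact (Prod.ext_iff.1 this).2
    have hy : y' = F y := by
      have := graph_inj F (hsub (by simp : (y, y') ∈ _))
      exact (Prod.ext_iff.1 this).2
    have hz : z' = F z := by
      have := graph_inj F (hsub (by simp : (z, z') ∈ _))
      exact (Prod.ext_iff.1 this).2
    subst hx; subst hy; subst hz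
    have hxy : x ≠ y := fun h => hPQ (by rw [h])
    have hxz : x ≠ z := fun h => hPR (by rw [h])
    have hyz : y ≠ z := fun h => hQR (by rw [h])
    have n1 : (x, F x) ∉ ({(y, F y), (z, F z)} : Finset (V n × V n)) := by
      simp only [Finset.mem_insert, Finset.mem_singleton, not_or]
      exact ⟨hPQ, hPR⟩
    have n2 : (y, F y) ∉ ({(z, F z)} : Finset (V n × V n)) := by
      simpa using hQR
    rw [Finset.sum_insert n1, Finset.sum_insert n2, Finset.sum_singleton] at hsum
    have ha : a = x + y + z := by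
      have := (Prod.ext_iff.1 hsum).1
      simp only [Prod.fst_add] at this
      rw [← this]; abel
    have hb : b = F x + F y + F z := by
      have := (Prod.ext_iff.1 hsum).2
      simp only [Prod.snd_add] at this
      rw [← this]; abel
    have aux : ∀ s w r : V n, a = s + w + r → b = F s + F w + F r →
        ({(s, F s), (w, F w), (r, F r)} : Finset (V n × V n)) =
          {(x, F x), (y, F y), (z, F z)} →
        (s, w) ∈ X.filter fun t => g t = {(x, F x), (y, F y), (z, F z)} := by
      intro s w r h1 h2 h3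
      have h4 : s + w + a = r := by
        rw [h1]
        have : s + w + (s + w + r) = (s + s) + (w + w) + r := by abel
        rw [this, add_self, add_self, zero_add, zero_add]
      rw [Finset.mem_filter, hX, Finset.mem_filter]
      refine ⟨⟨mem_univ _, ?_⟩, ?_⟩
      · show F s + F w + F (s + w + a) = b
        rw [h4, h2]
      · simp only [hg]
        rw [h4, h3]
    have hset : (X.filter fun t => g t = {(x, F x), (y, F y), (z, F z)}) =
        {(x, y), (x, z), (y, x), (y, z), (z, x), (z, y)} := by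
      apply Finset.Subset.antisymm
      · rintro ⟨s, w⟩ ht
        rw [Finset.mem_filter] at ht
        obtain ⟨ht1, ht2⟩ := ht
        have hd := (hdist _ ht1).1
        simp only at hd
        have hs : (s, F s) ∈ g (s, w) := by simp [hg]
        have hw : (w, F w) ∈ g (s, w) := by simp [hg]
        rw [ht2] at hs hw
        simp only [Finset.mem_insert, Finset.mem_singleton, Prod.mk.injEq] at hs hw
        have hs' : s = x ∨ s = y ∨ s = z := by tauto
        have hw' : w = x ∨ w = y ∨ w = z := by tauto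
        clear hs hw ht2 ht1
        simp only [Finset.mem_insert, Finset.mem_singleton, Prod.mk.injEq]
        rcases hs' with rfl | rfl | rfl <;> rcases hw' with rfl | rfl | rfl <;>
          first
            | exact absurd rfl hd
            | simp
      · intro t ht
        simp only [Finset.mem_insert, Finset.mem_singleton] at ht
        rcases ht with rfl | rfl | rfl | rfl | rfl | rfl
        · exact aux x y z ha hb rfl
        · exact aux x z y (by rw [ha]; abel) (by rw [hb]; abel)
            (by ext P; simp only [Finset.mem_insert, Finset.mem_singleton]; tauto)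
        · exact aux y x z (by rw [ha]; abel) (by rw [hb]; abel)
            (by ext P; simp only [Finset.mem_insert, Finset.mem_singleton]; tauto)
        · exact aux y z x (by rw [ha]; abel) (by rw [hb]; abel)
            (by ext P; simp only [Finset.mem_insert, Finset.mem_singleton]; tauto)
        · exact aux z x y (by rw [ha]; abel) (by rw [hb]; abel)
            (by ext P; simp only [Finset.mem_insert, Finset.mem_singleton]; tauto)
        · exact aux z y x (by rw [ha]; abel) (by rw [hb]; abel)
            (by ext P; simp only [Finset.mem_insert, Finset.mem_singleton]; tauto)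
    rw [hset]
    rw [Finset.card_insert_of_notMem, Finset.card_insert_of_notMem,
      Finset.card_insert_of_notMem, Finset.card_insert_of_notMem,
      Finset.card_insert_of_notMem, Finset.card_singleton]
    all_goals
      simp only [Finset.mem_insert, Finset.mem_singleton, Prod.mk.injEq, not_or, not_and]
    all_goals
      simp [hxy, hxz, hyz, hxy.symm, hxz.symm, hyz.symm]
  have hcount := Finset.card_eq_sum_card_fiberwise (f := g) (s := X) (t := Y) (fun t ht => hmap t ht)
  rw [Finset.sum_congr rfl hfib, Finset.sum_const, smul_eq_mul] at hcount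
  rw [e0, hcount]
  unfold mult
  push_cast
  ring

/-- Plateaued APN functions in even dimension `n ≥ 4`. -/
theorem odd_mult {n : ℕ} (hn : Even n) (h4 : 4 ≤ n) (F : V n → V n) (hF : APN F)
    (hP : Plateaued F) (p : V n × V n) (hp : p ∉ graph F) : Odd (mult (graph F) p) := by
  obtain ⟨a, b⟩ := p
  have hab : F a ≠ b := by
    intro h
    apply hp
    rw [graph, Finset.mem_image]
    exact ⟨a, mem_univ _, by rw [h]⟩
  have h1 := N_mod_four hn h4 F hF hP a (F a + b)
  rw [← add_assoc, add_self, zero_add, N_mult F a b hab] at h1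
  rw [← Nat.not_even_iff_odd]
  rintro ⟨k, hk⟩
  rw [hk] at h1
  push_cast at h1
  omega

/-- `F` and `G` are CCZ-equivalent: an affine permutation maps the graph of `F` onto the one of
`G`. -/
def CCZ {n : ℕ} (F G : V n → V n) : Prop :=
  ∃ (L : (V n × V n) ≃+ (V n × V n)) (c : V n × V n), (graph F).image (fun p => L p + c) = graph G

lemma mult_affine {n : ℕ} (S : Finset (V n × V n)) (L : (V n × V n) ≃+ (V n × V n))
    (c p : V n × V n) : mult (S.image fun p => L p + c) (L p + c) = mult S p := by
  set f : (V n × V n) ↪ (V n × V n) :=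
    ⟨fun p => L p + c, fun x y h => L.injective (add_right_cancel h)⟩ with hf
  have h1 : (S.image fun p => L p + c) = S.map f := by
    rw [Finset.map_eq_image]; rfl
  have hc : c + c + c = c := by
    refine Prod.ext ?_ ?_
    · show c.1 + c.1 + c.1 = c.1
      rw [add_self, zero_add]
    · show c.2 + c.2 + c.2 = c.2
      rw [add_self, zero_add]
  unfold mult
  rw [h1, Finset.powersetCard_map, Finset.filter_map, Finset.card_map]
  congr 1
  refine Finset.filter_congr fun T hT => ?_
  have hT3 := (Finset.mem_powersetCard.1 hT).2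
  have h2 : ∑ x ∈ T.map f, x = L (∑ x ∈ T, x) + c := by
    rw [Finset.sum_map]
    have : ∀ x ∈ T, f x = L x + c := fun x _ => rfl
    rw [Finset.sum_congr rfl this, Finset.sum_add_distrib, Finset.sum_const, hT3, map_sum]
    congr 1
    rw [← hc]
    simp only [succ_nsmul, zero_nsmul, zero_add]
    rw [hc, hc]
  show ∑ x ∈ T.map f, x = L p + c ↔ ∑ x ∈ T, x = p
  rw [h2]
  constructor
  · intro h
    exact L.injective (add_right_cancel h)
  · rintro rfl
    rfl

/-- Functions CCZ-equivalent to plateaued APN functions. -/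
theorem odd_mult_ccz {n : ℕ} (hn : Even n) (h4 : 4 ≤ n) (F G : V n → V n) (hG : APN G)
    (hP : Plateaued G) (hFG : CCZ F G) (p : V n × V n) (hp : p ∉ graph F) :
    Odd (mult (graph F) p) := by
  obtain ⟨L, c, h⟩ := hFG
  rw [← mult_affine (graph F) L c p, h]
  apply odd_mult hn h4 G hG hP
  rw [← h]
  intro hmem
  obtain ⟨r, hr, hr2⟩ := Finset.mem_image.1 hmem
  have : r = p := L.injective (add_right_cancel hr2)
  exact hp (this ▸ hr)

end H443APN
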